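import Mathlib

/-!
# Augmented Chow polynomials of simplicial posets need not be real-rooted

The face poset of the disjoint union of two triangles.
-/

set_option autoImplicit false

namespace Pool.Agent.Results.MP_308f9e_co.TwoTriangles

open Polynomial

/-- A finite graded simplicial poset of rank `n`: a finite poset with a least element in which
every interval `[⊥, m]`, `m` maximal, is isomorphic to the Boolean lattice of rank `n`. -/
structure GradedSimplicial (P : Type) [PartialOrder P] [OrderBot P] (n : ℕ) : Prop where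
  finite : Finite P
  boolean : ∀ m : P, IsMax m → Nonempty (Set.Iic m ≃o Finset (Fin n))

/-- The flag `f`-vector: the number of chains whose set of ranks is `T`.  A chain is given by the
strictly increasing map which sends `t ∈ T` to its element of rank `t`; the rank of an element is
its height. -/
noncomputable def alpha (Q : Type) [PartialOrder Q] (T : Finset ℕ) : ℤ :=
  Nat.card {c : T → Q // StrictMono c ∧ ∀ t : T, Order.height (c t) = (((t : ℕ) : ℕ∞))}

/-- The flag `h`-vector. -/
noncomputable def beta (Q : Type) [PartialOrder Q] (S : Finset ℕ) : ℤ :=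
  ∑ T ∈ S.powerset, (-1) ^ (S \ T).card * alpha Q T

/-- Isolated sets. -/
def Isolated (S : Finset ℕ) : Prop := ∀ i ∈ S, i + 1 ∉ S

instance : DecidablePred Isolated := fun S => inferInstanceAs (Decidable (∀ i ∈ S, i + 1 ∉ S))

/-- The polynomial `H_{P̂}`, where `P̂ = WithTop P`. -/
noncomputable def H (P : Type) [PartialOrder P] (n : ℕ) : ℤ[X] :=
  ∑ S ∈ (Finset.Icc 2 n).powerset.filter Isolated,
    C (beta (WithTop P) S) * X ^ S.card * (1 + X) ^ (n - 2 * S.card)

/-- The polynomial `H_{P̂*}`. -/
noncomputable def HDual (P : Type) [PartialOrder P] (n : ℕ) : ℤ[X] :=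
  ∑ S ∈ (Finset.Icc 2 n).powerset.filter Isolated,
    C (beta (WithTop P) (S.image fun s => n + 1 - s)) * X ^ S.card * (1 + X) ^ (n - 2 * S.card)

/-- The augmented polynomial `H^aug_{P̂}`. -/
noncomputable def HAug (P : Type) [PartialOrder P] (n : ℕ) : ℤ[X] :=
  ∑ S ∈ (Finset.Icc 1 n).powerset.filter Isolated,
    C (beta (WithTop P) S) * X ^ S.card * (1 + X) ^ (n + 1 - 2 * S.card)

/-- All complex roots are real. -/
def RealRooted (p : ℤ[X]) : Prop := ∀ z : ℂ, aeval z p = 0 → z.im = 0

/-- The real roots of `p` with multiplicity, in decreasing order. -/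
noncomputable def rootList (p : ℤ[X]) : List ℝ :=
  ((p.map (Int.castRingHom ℝ)).roots.sort (· ≥ ·))

/-- `f` interlaces `g`. -/
def Interlaces (f g : ℤ[X]) : Prop :=
  RealRooted f ∧ RealRooted g ∧ (g.natDegree = f.natDegree ∨ g.natDegree = f.natDegree + 1) ∧
  (∀ i (hi : i < (rootList f).length) (hj : i < (rootList g).length),
    (rootList f)[i] ≤ (rootList g)[i]) ∧
  (∀ i (hi : i < (rootList f).length) (hj : i + 1 < (rootList g).length),
    (rootList g)[i + 1] ≤ (rootList f)[i])

/-- The face poset of two disjoint triangles. -/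
abbrev TT : Type := {s : Finset (Fin 6) // s ⊆ {0, 1, 2} ∨ s ⊆ {3, 4, 5}}

instance : OrderBot TT where
  bot := ⟨∅, Or.inl (Finset.empty_subset _)⟩
  bot_le s := Finset.empty_subset s.1

/-- rank function of the face poset with a top added -/
def r : WithTop TT → ℕ
  | none => 4
  | some s => s.1.card

theorem card_le (s : TT) : s.1.card ≤ 3 := by
  rcases s.2 with h | h
  · exact (Finset.card_le_card h).trans (by decide)
  · exact (Finset.card_le_card h).trans (by decide)

theorem r_strictMono : StrictMono r := by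
  intro a b hab
  match a, b, hab with
  | some a, none, _ => exact Nat.lt_succ_of_le (card_le a)
  | some a, some b, hab =>
    have : a < b := WithTop.coe_lt_coe.1 hab
    exact Finset.card_lt_card this
  | none, b, hab => exact absurd hab (not_top_lt)

theorem r_pred (x : WithTop TT) (hx : r x ≠ 0) : ∃ y, y < x ∧ r y + 1 = r x := by
  match x, hx with
  | none, _ =>
    exact ⟨some ⟨{0, 1, 2}, Or.inl (Finset.Subset.refl _)⟩, WithTop.coe_lt_top _, rfl⟩
  | some s, hx =>
    have hs : s.1.Nonempty := Finset.card_ne_zero.1 hx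
    obtain ⟨a, ha⟩ := hs
    refine ⟨some ⟨s.1.erase a, ?_⟩, ?_, ?_⟩
    · rcases s.2 with h | h
      · exact Or.inl ((Finset.erase_subset _ _).trans h)
      · exact Or.inr ((Finset.erase_subset _ _).trans h)
    · exact WithTop.coe_lt_coe.2 (Finset.erase_ssubset ha)
    · exact Finset.card_erase_add_one ha

theorem height_eq (x : WithTop TT) : Order.height x = r x := by
  apply le_antisymm
  · refine (Order.height_le_height_apply_of_strictMono r r_strictMono x).trans ?_
    rw [Order.height_nat]
  · have : ∀ k : ℕ, ∀ x, r x = k → ((k : ℕ) : ℕ∞) ≤ Order.height x := by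
      intro k
      induction k with
      | zero => intro x _; simp
      | succ k ih =>
        intro x hx
        obtain ⟨y, hy, hr⟩ := r_pred x (by omega)
        have h1 := ih y (by omega)
        have h2 := Order.height_add_one_le hy
        push_cast
        exact (add_le_add_left h1 1).trans h2
    exact this _ x rfl

theorem alpha_empty : alpha (WithTop TT) ∅ = 1 := by
  unfold alpha
  have : Nat.card {c : (∅ : Finset ℕ) → WithTop TT // StrictMono c ∧
      ∀ t : (∅ : Finset ℕ), Order.height (c t) = (((t : ℕ) : ℕ∞))} = 1 := by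
    rw [Nat.card_eq_one_iff_exists]
    refine ⟨⟨fun t => absurd t.2 (Finset.notMem_empty _), fun a => absurd a.2 (Finset.notMem_empty _),
      fun a => absurd a.2 (Finset.notMem_empty _)⟩, ?_⟩
    rintro ⟨c, hc⟩
    ext t
    exact absurd t.2 (Finset.notMem_empty _)
  rw [this]; rfl

theorem alpha_single (t : ℕ) :
    alpha (WithTop TT) {t} = Fintype.card {x : WithTop TT // r x = t} := by
  unfold alpha
  rw [← Nat.card_eq_fintype_card]
  congr 1
  refine Nat.card_congr ⟨fun c => ⟨c.1 ⟨t, Finset.mem_singleton_self t⟩, ?_⟩,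
    fun x => ⟨fun _ => x.1, ?_, ?_⟩, ?_, ?_⟩
  · have := c.2.2 ⟨t, Finset.mem_singleton_self t⟩
    rw [height_eq] at this
    exact_mod_cast this
  · intro a b hab
    have h1 := Finset.mem_singleton.1 a.2
    have h2 := Finset.mem_singleton.1 b.2
    exact absurd (Subtype.ext (h1.trans h2.symm)) hab.ne
  · intro a
    have h1 := Finset.mem_singleton.1 a.2
    rw [height_eq, x.2, h1]
  · rintro ⟨c, hc⟩
    ext a : 2
    have h1 := Finset.mem_singleton.1 a.2
    simp only
    congr 1
    exact Subtype.ext h1.symm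
  · rintro ⟨x, hx⟩
    rfl

theorem alpha_pair {s t : ℕ} (hst : s < t) :
    alpha (WithTop TT) {s, t} =
      Fintype.card {p : WithTop TT × WithTop TT // p.1 < p.2 ∧ r p.1 = s ∧ r p.2 = t} := by
  unfold alpha
  rw [← Nat.card_eq_fintype_card]
  congr 1
  have hs : s ∈ ({s, t} : Finset ℕ) := by simp
  have ht : t ∈ ({s, t} : Finset ℕ) := by simp
  refine Nat.card_congr ⟨fun c => ⟨(c.1 ⟨s, hs⟩, c.1 ⟨t, ht⟩), ?_, ?_, ?_⟩,
    fun p => ⟨fun a => if a.1 = s then p.1.1 else p.1.2, ?_, ?_⟩, ?_, ?_⟩
  · exact c.2.1 (show (⟨s, hs⟩ : {x // x ∈ ({s, t} : Finset ℕ)}) < ⟨t, ht⟩ from hst)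
  · have := c.2.2 ⟨s, hs⟩
    rw [height_eq] at this
    exact_mod_cast this
  · have := c.2.2 ⟨t, ht⟩
    rw [height_eq] at this
    exact_mod_cast this
  · intro a b hab
    have h1 : a.1 = s ∨ a.1 = t := Finset.mem_insert.1 a.2 |>.imp_right Finset.mem_singleton.1
    have h2 : b.1 = s ∨ b.1 = t := Finset.mem_insert.1 b.2 |>.imp_right Finset.mem_singleton.1
    have h3 : a.1 < b.1 := hab
    have h4 : a.1 = s := by
      rcases h1 with h | h
      · exact h
      · rcases h2 with h' | h' <;> omega
    have h5 : b.1 ≠ s := by omega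
    simp only [h4, h5, if_true, if_false]
    exact p.2.1
  · intro a
    rw [height_eq]
    have h1 : a.1 = s ∨ a.1 = t := Finset.mem_insert.1 a.2 |>.imp_right Finset.mem_singleton.1
    by_cases h : a.1 = s
    · simp only [h, if_true, p.2.2.1]
    · have h' : a.1 = t := by tauto
      simp only [h', hst.ne', if_false, p.2.2.2]
  · rintro ⟨c, hc⟩
    ext a : 2
    simp only
    by_cases h : a.1 = s
    · rw [if_pos h]
      congr 1
      exact Subtype.ext h.symm
    · rw [if_neg h]
      have h1 : a.1 = s ∨ a.1 = t := Finset.mem_insert.1 a.2 |>.imp_right Finset.mem_singleton.1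
      congr 1
      exact Subtype.ext (by tauto)
  · rintro ⟨⟨x, y⟩, hx⟩
    ext1
    simp [hst.ne']


set_option maxRecDepth 100000 in
theorem c1 : Fintype.card {x : WithTop TT // r x = 1} = 6 := by decide +kernel

set_option maxRecDepth 100000 in
theorem c2 : Fintype.card {x : WithTop TT // r x = 2} = 6 := by decide +kernel

set_option maxRecDepth 100000 in
theorem c3 : Fintype.card {x : WithTop TT // r x = 3} = 2 := by decide +kernel

set_option maxRecDepth 100000 in
theorem c13 : Fintype.card {p : WithTop TT × WithTop TT // p.1 < p.2 ∧ r p.1 = 1 ∧ r p.2 = 3} = 6 := by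
  decide +kernel


theorem b0 : beta (WithTop TT) ∅ = 1 := by
  simp [beta, alpha_empty]

theorem b1 : beta (WithTop TT) {1} = 5 := by
  have h : ({1} : Finset ℕ).powerset = {∅, {1}} := by decide
  rw [beta, h, Finset.sum_pair (by decide), alpha_empty, alpha_single, c1]
  rfl

theorem b2 : beta (WithTop TT) {2} = 5 := by
  have h : ({2} : Finset ℕ).powerset = {∅, {2}} := by decide
  rw [beta, h, Finset.sum_pair (by decide), alpha_empty, alpha_single, c2]
  rfl

theorem b3 : beta (WithTop TT) {3} = 1 := by
  have h : ({3} : Finset ℕ).powerset = {∅, {3}} := by decide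
  rw [beta, h, Finset.sum_pair (by decide), alpha_empty, alpha_single, c3]
  rfl

theorem b13 : beta (WithTop TT) {1, 3} = -1 := by
  have h : ({1, 3} : Finset ℕ).powerset = {∅, {1}, {3}, {1, 3}} := by decide
  rw [beta, h, Finset.sum_insert (by decide), Finset.sum_insert (by decide),
    Finset.sum_pair (by decide), alpha_empty, alpha_single, alpha_single,
    alpha_pair (by norm_num), c1, c3, c13]
  rfl

theorem HAug_eq : HAug TT 3 = 1 + 15 * X + 27 * X ^ 2 + 15 * X ^ 3 + X ^ 4 := by
  have h : (Finset.Icc 1 3).powerset.filter Isolated = {∅, {1}, {2}, {3}, {1, 3}} := by decide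
  rw [HAug, h, Finset.sum_insert (by decide), Finset.sum_insert (by decide),
    Finset.sum_insert (by decide), Finset.sum_pair (by decide), b0, b1, b2, b3, b13]
  simp only [Finset.card_empty, Finset.card_singleton, Finset.card_pair (show 1 ≠ 3 by decide)]
  simp only [map_ofNat, map_one, map_neg]
  ring

theorem not_realRooted : ¬ RealRooted (HAug TT 3) := by
  intro h
  rw [HAug_eq] at h
  set q : ℝ := √125 with hq
  have hq2 : q ^ 2 = 125 := Real.sq_sqrt (by norm_num)
  have hq0 : 0 ≤ q := Real.sqrt_nonneg _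
  have hq3 : 11 < q := by nlinarith
  have hq4 : q < 12 := by nlinarith
  set y : ℝ := (-15 + q) / 2 with hy
  have hy1 : y ^ 2 < 4 := by rw [hy]; nlinarith
  set w : ℝ := √(4 - y ^ 2) with hw
  have hw2 : w ^ 2 = 4 - y ^ 2 := Real.sq_sqrt (by linarith)
  have hw0 : 0 < w := Real.sqrt_pos.2 (by linarith)
  have hyy : y ^ 2 + 15 * y + 25 = 0 := by rw [hy]; nlinarith
  set z : ℂ := ⟨y / 2, w / 2⟩ with hz
  have hz2 : z ^ 2 = (y : ℂ) * z - 1 := by
    apply Complex.ext
    · simp [hz, sq]; nlinarith
    · simp [hz, sq]; ring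
  have hroot : aeval z (1 + 15 * X + 27 * X ^ 2 + 15 * X ^ 3 + X ^ 4 : ℤ[X]) = 0 := by
    have hyc : (y : ℂ) ^ 2 + 15 * y + 25 = 0 := by exact_mod_cast congrArg (fun t : ℝ => (t : ℂ)) hyy
    simp only [map_add, map_mul, map_pow, aeval_X, map_one, map_ofNat]
    linear_combination (z ^ 2 + (15 + (y : ℂ)) * z + 1) * hz2 + z ^ 2 * hyc
  have := h z hroot
  simp [hz] at this
  exact hw0.ne' this


/-- the inclusion of the Boolean lattice of rank three -/
def emb (k : Fin 4) : Fin 3 ↪ Fin 6 := (Fin.natAddEmb k.1).trans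
  (Fin.castLEEmb (by have := k.2; omega))

theorem simplicial_aux (k : Fin 4) (m : TT) (hm : m.1 = Finset.univ.map (emb k))
    (hk : ∀ s : Finset (Fin 6), s ⊆ m.1 → s ⊆ {0, 1, 2} ∨ s ⊆ {3, 4, 5}) :
    Nonempty (Set.Iic m ≃o Finset (Fin 3)) := by
  refine ⟨⟨⟨fun s => Finset.univ.filter fun i => emb k i ∈ s.1.1,
    fun t => ⟨⟨t.map (emb k), ?_⟩, ?_⟩, ?_, ?_⟩, ?_⟩⟩
  · apply hk
    rw [hm]
    exact Finset.map_subset_map.2 (Finset.subset_univ _)
  · show t.map (emb k) ⊆ m.1
    rw [hm]
    exact Finset.map_subset_map.2 (Finset.subset_univ _)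
  · rintro ⟨⟨s, hs⟩, hsm⟩
    have hsm' : s ⊆ m.1 := hsm
    apply Subtype.ext
    apply Subtype.ext
    ext x
    simp only [Finset.mem_map, Finset.mem_filter, Finset.mem_univ, true_and]
    constructor
    · rintro ⟨i, hi, rfl⟩; exact hi
    · intro hx
      have : x ∈ Finset.univ.map (emb k) := by rw [← hm]; exact hsm' hx
      obtain ⟨i, _, rfl⟩ := Finset.mem_map.1 this
      exact ⟨i, hx, rfl⟩
  · intro t
    ext i
    simp
  · rintro ⟨⟨s, hs⟩, hsm⟩ ⟨⟨t, ht⟩, htm⟩
    have hsm' : s ⊆ m.1 := hsm
    constructor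
    · intro h x hx
      have : x ∈ Finset.univ.map (emb k) := by rw [← hm]; exact hsm' hx
      obtain ⟨i, _, rfl⟩ := Finset.mem_map.1 this
      have h1 : i ∈ Finset.univ.filter fun i => emb k i ∈ s := by simpa using hx
      have h2 := h h1
      simpa using h2
    · intro h i hi
      have h' : s ⊆ t := h
      simp only [Equiv.coe_fn_mk, Finset.mem_filter, Finset.mem_univ, true_and] at hi ⊢
      exact h' hi

theorem simplicial : GradedSimplicial TT 3 := by
  refine ⟨inferInstance, fun m hm => ?_⟩
  rcases m.2 with h | h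
  · have : m.1 = {0, 1, 2} := by
      have h1 : m ≤ ⟨{0, 1, 2}, Or.inl (Finset.Subset.refl _)⟩ := h
      have h2 := hm h1
      exact Finset.Subset.antisymm h h2
    refine simplicial_aux 0 m (by rw [this]; decide) fun s hs => Or.inl ?_
    rw [this] at hs; exact hs
  · have : m.1 = {3, 4, 5} := by
      have h1 : m ≤ ⟨{3, 4, 5}, Or.inr (Finset.Subset.refl _)⟩ := h
      have h2 := hm h1
      exact Finset.Subset.antisymm h h2
    refine simplicial_aux 3 m (by rw [this]; decide) fun s hs => Or.inr ?_
    rw [this] at hs; exact hs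

/-- **Real-rootedness and interlacing fail for simplicial posets in general.**  The face poset
`TT` of the disjoint union of two triangles is a finite graded simplicial poset of rank `3` whose
augmented Chow polynomial `1 + 15 x + 27 x² + 15 x³ + x⁴` is not real-rooted; in particular the
conjectured real-rootedness and interlacing do not hold for all finite graded simplicial posets. -/
theorem result :
    (GradedSimplicial TT 3 ∧ HAug TT 3 = 1 + 15 * X + 27 * X ^ 2 + 15 * X ^ 3 + X ^ 4 ∧
      ¬ RealRooted (HAug TT 3)) ∧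
    ¬ ∀ (P : Type) [PartialOrder P] [OrderBot P] (n : ℕ), 1 ≤ n → GradedSimplicial P n →
      RealRooted (H P n) ∧ RealRooted (HDual P n) ∧ RealRooted (HAug P n) ∧
      Interlaces (H P n) (HAug P n) ∧ Interlaces (HDual P n) (HAug P n) := by
  refine ⟨⟨simplicial, HAug_eq, not_realRooted⟩, fun h => ?_⟩
  exact not_realRooted (h TT 3 (by norm_num) simplicial).2.2.1

end Pool.Agent.Results.MP_308f9e_co.TwoTriangles
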